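import Pool.Agent.K6.H53.NB.AngW

/-!
# Nonwandering points of the `N`-body problem have small angular momentum

For all masses of `N` bodies there is a constant `C` such that for every energy `E`, every complete
flow on the energy surface obtained by a change of time, every nonwandering point `(q, p)` and every
plane, with orthonormal basis `u, w`, the component of the angular momentum
`J = ∑ (⟨q_i, u⟩ ⟨p_i, w⟩ - ⟨q_i, w⟩ ⟨p_i, u⟩)` satisfies `J² ≤ C R`, where
`R = √(∑ m_i (⟨q_i, u⟩² + ⟨q_i, w⟩²))` is the size of the projection of the configuration to the plane.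
So the motions which come closer to a total collision than `J² / C` are wandering, for every energy
(for three bodies and fixed energy: Birkhoff 1927, after Sundman).

Idea of the proof: for every scale `δ` let `G_δ` be the square root of the maximum over all partitions
into clusters of (inertia of the centres of mass of the clusters) + (penalty) `δ²`. Its second
derivative in time is at least (transversal kinetic energy of the clusters at scale `δ`) / `G_δ` -
`C / (δ R)`. The angular momentum is a telescoping sum over the scales `δ = κ^k R`, controlled by the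
transversal kinetic energies at all scales, so that the function `∑ δ^(3/2) G_δ` is strongly convex
if `J²` is large compared with `R`. This contradicts the return of nearby points, both for long and
for short physical return times.
-/

set_option autoImplicit false

namespace Pool.Agent.Results.MP_70f7a7_an.AngularMomentum

/-- The space `R³`. -/
abbrev R3 : Type := EuclideanSpace ℝ (Fin 3)

/-- Phase space: pairs (positions, momenta) of `N` bodies. -/
abbrev Phase (N : ℕ) : Type := (Fin N → R3) × (Fin N → R3)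

/-- Kinetic energy of the momenta `p`. -/
noncomputable def kinetic {N : ℕ} (m : Fin N → ℝ) (p : Fin N → R3) : ℝ :=
  ∑ i, ‖p i‖ ^ 2 / (2 * m i)

/-- The Newtonian potential `U(q) = ∑_{i<j} m_i m_j / |q_i - q_j|` (the energy is
kinetic energy minus `U`). -/
noncomputable def potential {N : ℕ} (m : Fin N → ℝ) (q : Fin N → R3) : ℝ :=
  ∑ i, ∑ j, m i * m j / ‖q i - q j‖ / 2

/-- The energy surface `H = E` of the reduced `N`-body problem (centre of mass `0`, total
momentum `0`, no collisions). -/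
def surface {N : ℕ} (m : Fin N → ℝ) (E : ℝ) : Set (Phase N) :=
  {x | (∀ i j, i ≠ j → x.1 i ≠ x.1 j) ∧ ∑ i, m i • x.1 i = 0 ∧ ∑ i, x.2 i = 0 ∧
    kinetic m x.2 - potential m x.1 = E}

/-- `φ` is the complete flow on the energy surface obtained from the `N`-body flow by a smooth
positive change of time `ψ`. -/
structure IsReparametrizedFlow {N : ℕ} (m : Fin N → ℝ) (E : ℝ) (ψ : Phase N → ℝ)
    (φ : ℝ → Phase N → Phase N) : Prop where
  /-- `ψ` is smooth outside collisions -/
  smooth : ContDiffOn ℝ ((⊤ : ℕ∞) : WithTop ℕ∞) ψ {x | ∀ i j, i ≠ j → x.1 i ≠ x.1 j}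
  /-- `ψ` is positive outside collisions -/
  pos : ∀ x : Phase N, (∀ i j, i ≠ j → x.1 i ≠ x.1 j) → 0 < ψ x
  /-- orbits exist for all times and solve the reparametrized equations of motion -/
  flow : ∀ x ∈ surface m E, φ 0 x = x ∧ ∀ t : ℝ, φ t x ∈ surface m E ∧
    HasDerivAt (fun s : ℝ => φ s x)
      (ψ (φ t x) • ((fun i => (m i)⁻¹ • (φ t x).2 i),
        (fun i => ∑ j, (m i * m j / ‖(φ t x).1 j - (φ t x).1 i‖ ^ 3) •
          ((φ t x).1 j - (φ t x).1 i)))) t

/-- `x` is a nonwandering point of the flow `φ` on the energy surface `S`. -/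
def IsNonwandering {N : ℕ} (S : Set (Phase N)) (φ : ℝ → Phase N → Phase N) (x : Phase N) : Prop :=
  ∀ V : Set (Phase N), IsOpen V → x ∈ V → ∀ T : ℝ, ∃ t : ℝ, T < t ∧ ∃ y ∈ V ∩ S, φ t y ∈ V

/-- The component `∑ (⟨q_i, u⟩ ⟨p_i, w⟩ - ⟨q_i, w⟩ ⟨p_i, u⟩)` of the angular momentum. -/
noncomputable def spin {N : ℕ} (u w : R3) (x : Phase N) : ℝ :=
  ∑ i, (inner ℝ (x.1 i) u * inner ℝ (x.2 i) w - inner ℝ (x.1 i) w * inner ℝ (x.2 i) u)

/-- `√(∑ m_i (⟨q_i, u⟩² + ⟨q_i, w⟩²))`, the size of the projection of the configuration to the plane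
of `u` and `w`. -/
noncomputable def planarSize {N : ℕ} (m : Fin N → ℝ) (u w : R3) (x : Phase N) : ℝ :=
  Real.sqrt (∑ i, m i * ((inner ℝ (x.1 i) u) ^ 2 + (inner ℝ (x.1 i) w) ^ 2))

/-- the projection to the plane -/
noncomputable def proj (u w : R3) : R3 →L[ℝ] R3 :=
  (innerSL ℝ u).smulRight u + (innerSL ℝ w).smulRight w

/-- the rotation of the plane by a right angle -/
noncomputable def rot (u w : R3) : R3 →L[ℝ] R3 :=
  (innerSL ℝ u).smulRight w - (innerSL ℝ w).smulRight u

theorem proj_apply (u w z : R3) : proj u w z = inner ℝ u z • u + inner ℝ w z • w := rfl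

theorem rot_apply (u w z : R3) : rot u w z = inner ℝ u z • w - inner ℝ w z • u := rfl

theorem norm_comb {u w : R3} (hu : ‖u‖ = 1) (hw : ‖w‖ = 1) (huw : inner ℝ u w = (0 : ℝ))
    (a b : ℝ) : ‖a • u + b • w‖ ^ 2 = a ^ 2 + b ^ 2 := by
  rw [norm_add_sq_real, norm_smul, norm_smul, inner_smul_left, inner_smul_right, huw, hu, hw]
  simp

theorem bessel {u w : R3} (hu : ‖u‖ = 1) (hw : ‖w‖ = 1) (huw : inner ℝ u w = (0 : ℝ)) (z : R3) :
    (inner ℝ u z) ^ 2 + (inner ℝ w z) ^ 2 ≤ ‖z‖ ^ 2 := by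
  have h0 := sq_nonneg ‖z - (inner ℝ u z • u + inner ℝ w z • w)‖
  rw [norm_sub_sq_real, norm_comb hu hw huw, inner_add_right, inner_smul_right, inner_smul_right,
    real_inner_comm u z, real_inner_comm w z] at h0
  nlinarith

theorem proj_le {u w : R3} (hu : ‖u‖ = 1) (hw : ‖w‖ = 1) (huw : inner ℝ u w = (0 : ℝ)) (z : R3) :
    ‖proj u w z‖ ≤ ‖z‖ := by
  refine le_of_sq_le_sq ?_ (norm_nonneg _)
  rw [proj_apply, norm_comb hu hw huw]
  exact bessel hu hw huw z

theorem rot_skew {u w : R3} (hu : ‖u‖ = 1) (hw : ‖w‖ = 1) (huw : inner ℝ u w = (0 : ℝ)) :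
    Pool.Agent.K6.H53.NB.Skew (rot u w) where
  le := fun z => by
    refine le_of_sq_le_sq ?_ (norm_nonneg _)
    have h1 : rot u w z = (-(inner ℝ w z)) • u + inner ℝ u z • w := by
      rw [rot_apply, neg_smul]
      abel
    rw [h1, norm_comb hu hw huw]
    have := bessel hu hw huw z
    nlinarith
  sk := fun z => by
    rw [rot_apply, inner_sub_left, inner_smul_left, inner_smul_left]
    simp only [conj_trivial]
    ring

theorem spin_eq {N : ℕ} {m : Fin N → ℝ} (hm : ∀ i, 0 < m i) {u w : R3} (hu : ‖u‖ = 1)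
    (hw : ‖w‖ = 1) (huw : inner ℝ u w = (0 : ℝ)) (x : Phase N) :
    spin u w x = Pool.Agent.K6.H53.NB.Am m (proj u w) (rot u w) x := by
  have huu : inner ℝ u u = (1 : ℝ) := by rw [real_inner_self_eq_norm_sq, hu]; norm_num
  have hww : inner ℝ w w = (1 : ℝ) := by rw [real_inner_self_eq_norm_sq, hw]; norm_num
  have hwu : inner ℝ w u = (0 : ℝ) := by rw [real_inner_comm, huw]
  unfold spin Pool.Agent.K6.H53.NB.Am Pool.Agent.K6.H53.NB.om Pool.Agent.K6.H53.NB.dil
    Pool.Agent.K6.H53.NB.pr Pool.Agent.Y516.NW.vel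
  refine Finset.sum_congr rfl fun i _ => ?_
  have h0 := (hm i).ne'
  simp only [rot_apply, proj_apply, inner_add_right, inner_sub_left, inner_smul_left,
    inner_smul_right, conj_trivial, huu, hww, hwu, huw, real_inner_comm (x.1 i),
    real_inner_comm (x.2 i)]
  field_simp
  ring

theorem planarSize_eq {N : ℕ} (m : Fin N → ℝ) {u w : R3} (hu : ‖u‖ = 1)
    (hw : ‖w‖ = 1) (huw : inner ℝ u w = (0 : ℝ)) (x : Phase N) :
    planarSize m u w x = Pool.Agent.K6.H53.NB.Sz m (proj u w) x := by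
  unfold planarSize Pool.Agent.K6.H53.NB.Sz Pool.Agent.K6.H53.NB.siz Pool.Agent.K6.H53.NB.iner
    Pool.Agent.K6.H53.NB.pr
  congr 1
  refine Finset.sum_congr rfl fun i _ => ?_
  rw [proj_apply, norm_comb hu hw huw, real_inner_comm, real_inner_comm w]

theorem isFl {N : ℕ} {m : Fin N → ℝ} {E : ℝ} {ψ : Phase N → ℝ} {φ : ℝ → Phase N → Phase N}
    (h : IsReparametrizedFlow m E ψ φ) : Pool.Agent.Y516.NW.IsFl m E ψ φ :=
  ⟨h.smooth.continuousOn, h.pos, h.flow⟩

/-- For `N` bodies there is `C > 0`, depending on the masses only, such that for every energy `E`,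
every complete flow obtained from the `N`-body flow on `H = E` by a smooth positive change of time,
every nonwandering point `(q, p)` and all orthonormal `u, w ∈ R³`:
`(∑ (⟨q_i, u⟩ ⟨p_i, w⟩ - ⟨q_i, w⟩ ⟨p_i, u⟩))² ≤ C √(∑ m_i (⟨q_i, u⟩² + ⟨q_i, w⟩²))`. -/
theorem result (N : ℕ) (hN : 0 < N) (m : Fin N → ℝ) (hm : ∀ i, 0 < m i) :
    ∃ C : ℝ, 0 < C ∧ ∀ (E : ℝ) (ψ : Phase N → ℝ) (φ : ℝ → Phase N → Phase N),
      IsReparametrizedFlow m E ψ φ → ∀ x ∈ surface m E, IsNonwandering (surface m E) φ x →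
        ∀ u w : R3, ‖u‖ = 1 → ‖w‖ = 1 → inner ℝ u w = (0 : ℝ) →
          spin u w x ^ 2 ≤ C * planarSize m u w x := by
  obtain ⟨μ, M, θ, hms⟩ := Pool.Agent.K6.H53.NB.exists_mass m hm hN
  have hθ0 : 0 ≤ θ := zero_le_one.trans hms.hθ1
  refine ⟨Pool.Agent.K6.H53.NB.cstJ N μ M θ, ?_, ?_⟩
  · have hκ0 := Pool.Agent.K6.H53.NB.kap_pos N hms.μ0 hms.M0 hθ0
    have hκ1 := Pool.Agent.K6.H53.NB.kap_lt N hms.μ0 hms.M0 hθ0
    have h3 := Pool.Agent.K6.H53.NB.cs3_pos N hθ0 hκ0 hκ1
    have h4 := Pool.Agent.K6.H53.NB.cs4_pos M hκ1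
    have h6 := Pool.Agent.K6.H53.NB.cs6_pos N M hθ0 hκ1
    unfold Pool.Agent.K6.H53.NB.cstJ
    positivity
  · intro E ψ φ hφ x hx hNW u w hu hw huw
    rw [spin_eq hm hu hw huw, planarSize_eq m hu hw huw]
    exact Pool.Agent.K6.H53.NB.ang hms E ψ φ (isFl hφ) x hx hNW (proj u w) (proj_le hu hw huw)
      (rot u w) (rot_skew hu hw huw)

end Pool.Agent.Results.MP_70f7a7_an.AngularMomentum
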