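import Pool.Agent.K6.H53.NB.Orig

/-!
# A universal escape criterion for the `N`-body problem

For all masses of `N` bodies there is a constant `K` such that for every energy `E`, every complete
flow on the energy surface obtained by a change of time, and every linear map `A : R³ → R³` of norm at
most `1` (for instance the identity, or the orthogonal projection to a line or a plane):

* if `D = ∑ ⟨A q_i, A p_i⟩` is positive and `D ^ 4 > K I`, `I = ∑ m_i |A q_i|²`, at some phase point, then
  along its future orbit the size `√I` grows at least linearly in the physical time, with speed at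
  least one half of the initial speed `D / √I`;
* hence every nonwandering point satisfies `D ^ 4 ≤ K I` for all `A`.

Idea of the proof: for a scale `δ` the maximum over all partitions of the bodies into clusters of
(inertia of the centres of mass of the clusters) + (penalty of the partition) `δ²` is almost a convex
function of time, since at a maximizing partition the distances between different clusters are at
least of order `δ`. It differs from `I` by `O(δ²)`. All scales are used simultaneously.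
-/

set_option autoImplicit false

namespace Pool.Agent.Results.MP_70f7a7_an.EscapeCriterion

/-- The space `R³`. -/
abbrev R3 : Type := EuclideanSpace ℝ (Fin 3)

/-- Phase space: pairs (positions, momenta) of `N` bodies. -/
abbrev Phase (N : ℕ) : Type := (Fin N → R3) × (Fin N → R3)

/-- Kinetic energy of the momenta `p`. -/
noncomputable def kinetic {N : ℕ} (m : Fin N → ℝ) (p : Fin N → R3) : ℝ :=
  ∑ i, ‖p i‖ ^ 2 / (2 * m i)

/-- The Newtonian potential `U(q) = ∑_{i<j} m_i m_j / |q_i - q_j|` (the energy is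
kinetic energy minus `U`). -/
noncomputable def potential {N : ℕ} (m : Fin N → ℝ) (q : Fin N → R3) : ℝ :=
  ∑ i, ∑ j, m i * m j / ‖q i - q j‖ / 2

/-- The energy surface `H = E` of the reduced `N`-body problem (centre of mass `0`, total
momentum `0`, no collisions). -/
def surface {N : ℕ} (m : Fin N → ℝ) (E : ℝ) : Set (Phase N) :=
  {x | (∀ i j, i ≠ j → x.1 i ≠ x.1 j) ∧ ∑ i, m i • x.1 i = 0 ∧ ∑ i, x.2 i = 0 ∧
    kinetic m x.2 - potential m x.1 = E}

/-- `φ` is the complete flow on the energy surface obtained from the `N`-body flow by a smooth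
positive change of time `ψ`. -/
structure IsReparametrizedFlow {N : ℕ} (m : Fin N → ℝ) (E : ℝ) (ψ : Phase N → ℝ)
    (φ : ℝ → Phase N → Phase N) : Prop where
  /-- `ψ` is smooth outside collisions -/
  smooth : ContDiffOn ℝ ((⊤ : ℕ∞) : WithTop ℕ∞) ψ {x | ∀ i j, i ≠ j → x.1 i ≠ x.1 j}
  /-- `ψ` is positive outside collisions -/
  pos : ∀ x : Phase N, (∀ i j, i ≠ j → x.1 i ≠ x.1 j) → 0 < ψ x
  /-- orbits exist for all times and solve the reparametrized equations of motion -/
  flow : ∀ x ∈ surface m E, φ 0 x = x ∧ ∀ t : ℝ, φ t x ∈ surface m E ∧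
    HasDerivAt (fun s : ℝ => φ s x)
      (ψ (φ t x) • ((fun i => (m i)⁻¹ • (φ t x).2 i),
        (fun i => ∑ j, (m i * m j / ‖(φ t x).1 j - (φ t x).1 i‖ ^ 3) •
          ((φ t x).1 j - (φ t x).1 i)))) t

/-- `x` is a nonwandering point of the flow `φ` on the energy surface `S`. -/
def IsNonwandering {N : ℕ} (S : Set (Phase N)) (φ : ℝ → Phase N → Phase N) (x : Phase N) : Prop :=
  ∀ V : Set (Phase N), IsOpen V → x ∈ V → ∀ T : ℝ, ∃ t : ℝ, T < t ∧ ∃ y ∈ V ∩ S, φ t y ∈ V

/-- `I = ∑ m_i |A q_i|²`, the moment of inertia of the configuration transformed by the linear map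
`A`. -/
noncomputable def inertia {N : ℕ} (m : Fin N → ℝ) (A : R3 →L[ℝ] R3) (x : Phase N) : ℝ :=
  ∑ i, m i * ‖A (x.1 i)‖ ^ 2

/-- `D = ∑ ⟨A q_i, A p_i⟩`, one half of the derivative of `I` with respect to the physical time. -/
noncomputable def dilation {N : ℕ} (A : R3 →L[ℝ] R3) (x : Phase N) : ℝ :=
  ∑ i, inner ℝ (A (x.1 i)) (A (x.2 i))

theorem isFl {N : ℕ} {m : Fin N → ℝ} {E : ℝ} {ψ : Phase N → ℝ} {φ : ℝ → Phase N → Phase N}
    (h : IsReparametrizedFlow m E ψ φ) : Pool.Agent.Y516.NW.IsFl m E ψ φ :=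
  ⟨h.smooth.continuousOn, h.pos, h.flow⟩

theorem dilation_eq {N : ℕ} {m : Fin N → ℝ} (hm : ∀ i, 0 < m i) (A : R3 →L[ℝ] R3)
    (x : Phase N) : dilation A x = Pool.Agent.K6.H53.NB.Dl m A x := by
  unfold dilation Pool.Agent.K6.H53.NB.Dl Pool.Agent.K6.H53.NB.dil Pool.Agent.K6.H53.NB.pr
    Pool.Agent.Y516.NW.vel
  refine Finset.sum_congr rfl fun i _ => ?_
  rw [map_smul, inner_smul_right, mul_inv_cancel_left₀ (hm i).ne']

/-- For `N` bodies there is `K > 0`, depending on the masses only, such that for every energy `E`,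
every complete flow obtained from the `N`-body flow on `H = E` by a smooth positive change of time and
every linear map `A : R³ → R³` with `|A z| ≤ |z|`:
(1) if `x = (q, p)` is a nonwandering point, then `(∑ ⟨A q_i, A p_i⟩)⁴ ≤ K ∑ m_i |A q_i|²`;
(2) if `D = ∑ ⟨A q_i, A p_i⟩ > 0` and `D⁴ > K I`, `I = ∑ m_i |A q_i|²`, at `x`, then along the future
orbit of `x` the size `√I` is at least `√(I(x)) + (D / √(I(x))) T / 2`, where `T` is the physical
time. -/
theorem result (N : ℕ) (hN : 0 < N) (m : Fin N → ℝ) (hm : ∀ i, 0 < m i) :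
    ∃ K : ℝ, 0 < K ∧ ∀ (E : ℝ) (ψ : Phase N → ℝ) (φ : ℝ → Phase N → Phase N),
      IsReparametrizedFlow m E ψ φ → ∀ A : R3 →L[ℝ] R3, (∀ z, ‖A z‖ ≤ ‖z‖) →
      ∀ x ∈ surface m E,
        (IsNonwandering (surface m E) φ x → dilation A x ^ 4 ≤ K * inertia m A x) ∧
        (0 < dilation A x → K * inertia m A x < dilation A x ^ 4 →
          ∀ T : ℝ → ℝ, T 0 = 0 → (∀ t, HasDerivAt T (ψ (φ t x)) t) → ∀ t, 0 ≤ t →
            Real.sqrt (inertia m A x) + dilation A x / Real.sqrt (inertia m A x) / 2 * T t ≤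
              Real.sqrt (inertia m A (φ t x))) := by
  obtain ⟨μ, M, θ, hms⟩ := Pool.Agent.K6.H53.NB.exists_mass m hm hN
  refine ⟨Pool.Agent.K6.H53.NB.cstK N M θ,
    Pool.Agent.K6.H53.NB.cstK_pos N M (zero_le_one.trans hms.hθ1), ?_⟩
  intro E ψ φ hφ A hA x hx
  refine ⟨fun hNW => ?_, fun hD hK T hT0 hT t ht => ?_⟩
  · rw [dilation_eq hm]
    exact Pool.Agent.K6.H53.NB.thin hms E ψ φ (isFl hφ) x hx hNW A hA
  · obtain ⟨τ, hmot⟩ := Pool.Agent.Y516.NW.mot_of_flow m hm E ψ φ (isFl hφ) x hx
    have h0 : φ 0 x = x := ((isFl hφ).flow x hx).1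
    have hτT : τ t = T t := by
      have h1 : ∀ s, HasDerivAt (fun s => τ s - T s) 0 s := fun s =>
        ((hmot.τd s).fun_sub (hT s)).congr_deriv (sub_self _)
      have h2 := is_const_of_deriv_eq_zero (fun s => (h1 s).differentiableAt)
        (fun s => (h1 s).deriv) t 0
      simp only [hmot.τ0, hT0, sub_zero] at h2
      linarith
    rw [dilation_eq hm] at hD hK ⊢
    have h1 := Pool.Agent.K6.H53.NB.mot_escape hms hmot A hA (by rw [h0]; exact hD)
      (by rw [h0]; exact hK) ht
    rw [h0, hτT] at h1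
    exact h1

end Pool.Agent.Results.MP_70f7a7_an.EscapeCriterion
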