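import Pool.Agent.K6.H53.NB.Meas3

/-!
# Nonwandering momenta over an arbitrary configuration of the `N`-body problem

For every number of bodies, every energy `E` and EVERY configuration `q` without collisions, let
`K = U(q) + E > 0` be the kinetic energy on the energy surface over `q`, and let `ρ₀ ≥ ρ₁ ≥ ρ₂` be the
square roots of the principal moments of `q`. The proportion of the momenta for which the phase point
is nonwandering is at most `f(ρ₀)³ f(ρ₁)² f(ρ₂)`, where `f(r) = max(1, K r / C) ^ (-1/2)` and `C` depends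
on the masses only. In particular it is at most `(C / (ρ K)) ^ (3/2)`, `ρ = √(∑ m_i |q_i|²)`.

Idea: the escape criterion (`EscapeCriterion`) for all directions bounds all six components of the
tensor `∑ (q_i ⊗ p_i + p_i ⊗ q_i)` at nonwandering points; in principal axes these are six orthogonal
linear functionals of the momenta with respect to the kinetic energy.
-/

set_option autoImplicit false

open MeasureTheory

namespace Pool.Agent.Results.MP_70f7a7_an.EveryConfiguration

/-- The space `R³`. -/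
abbrev R3 : Type := EuclideanSpace ℝ (Fin 3)

/-- Phase space: pairs (positions, momenta) of `N` bodies. -/
abbrev Phase (N : ℕ) : Type := (Fin N → R3) × (Fin N → R3)

/-- Kinetic energy of the momenta `p`. -/
noncomputable def kinetic {N : ℕ} (m : Fin N → ℝ) (p : Fin N → R3) : ℝ :=
  ∑ i, ‖p i‖ ^ 2 / (2 * m i)

/-- The Newtonian potential `U(q) = ∑_{i<j} m_i m_j / |q_i - q_j|` (the energy is
kinetic energy minus `U`). -/
noncomputable def potential {N : ℕ} (m : Fin N → ℝ) (q : Fin N → R3) : ℝ :=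
  ∑ i, ∑ j, m i * m j / ‖q i - q j‖ / 2

/-- The energy surface `H = E` of the reduced `N`-body problem (centre of mass `0`, total
momentum `0`, no collisions). -/
def surface {N : ℕ} (m : Fin N → ℝ) (E : ℝ) : Set (Phase N) :=
  {x | (∀ i j, i ≠ j → x.1 i ≠ x.1 j) ∧ ∑ i, m i • x.1 i = 0 ∧ ∑ i, x.2 i = 0 ∧
    kinetic m x.2 - potential m x.1 = E}

/-- `φ` is the complete flow on the energy surface obtained from the `N`-body flow by a smooth
positive change of time `ψ`. -/
structure IsReparametrizedFlow {N : ℕ} (m : Fin N → ℝ) (E : ℝ) (ψ : Phase N → ℝ)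
    (φ : ℝ → Phase N → Phase N) : Prop where
  /-- `ψ` is smooth outside collisions -/
  smooth : ContDiffOn ℝ ((⊤ : ℕ∞) : WithTop ℕ∞) ψ {x | ∀ i j, i ≠ j → x.1 i ≠ x.1 j}
  /-- `ψ` is positive outside collisions -/
  pos : ∀ x : Phase N, (∀ i j, i ≠ j → x.1 i ≠ x.1 j) → 0 < ψ x
  /-- orbits exist for all times and solve the reparametrized equations of motion -/
  flow : ∀ x ∈ surface m E, φ 0 x = x ∧ ∀ t : ℝ, φ t x ∈ surface m E ∧
    HasDerivAt (fun s : ℝ => φ s x)
      (ψ (φ t x) • ((fun i => (m i)⁻¹ • (φ t x).2 i),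
        (fun i => ∑ j, (m i * m j / ‖(φ t x).1 j - (φ t x).1 i‖ ^ 3) •
          ((φ t x).1 j - (φ t x).1 i)))) t

/-- `x` is a nonwandering point of the flow `φ` on the energy surface `S`. -/
def IsNonwandering {N : ℕ} (S : Set (Phase N)) (φ : ℝ → Phase N → Phase N) (x : Phase N) : Prop :=
  ∀ V : Set (Phase N), IsOpen V → x ∈ V → ∀ T : ℝ, ∃ t : ℝ, T < t ∧ ∃ y ∈ V ∩ S, φ t y ∈ V

/-- The momenta `(P_1, ..., P_n, -P_1 - ... - P_n)` of `n + 1` bodies. -/
noncomputable def momenta {n : ℕ} (P : Fin n → R3) : Fin (n + 1) → R3 := Fin.snoc P (-∑ i, P i)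

/-- The same momenta scaled so that their kinetic energy is `K`. -/
noncomputable def scaled {n : ℕ} (m : Fin (n + 1) → ℝ) (K : ℝ) (P : Fin n → R3) :
    Fin (n + 1) → R3 :=
  Real.sqrt (K / kinetic m (momenta P)) • momenta P

/-- The orthonormal basis `e` consists of principal axes of the configuration `q`, and the square
roots of the principal moments are `ρ 0 ≥ ρ 1 ≥ ρ 2 ≥ 0`. -/
def PrincipalAxes {N : ℕ} (m : Fin N → ℝ) (q : Fin N → R3) (e : OrthonormalBasis (Fin 3) ℝ R3)
    (ρ : Fin 3 → ℝ) : Prop :=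
  (∀ a b, ∑ i, m i * (inner ℝ (q i) (e a) * inner ℝ (q i) (e b)) = if a = b then ρ a ^ 2 else 0) ∧
    (∀ a, 0 ≤ ρ a) ∧ Antitone ρ

/-- The factor `max(1, K r / C) ^ (-1/2)`. -/
noncomputable def factor (K r C : ℝ) : ℝ := 1 / Real.sqrt (max 1 (K * r / C))

theorem isFl {N : ℕ} {m : Fin N → ℝ} {E : ℝ} {ψ : Phase N → ℝ} {φ : ℝ → Phase N → Phase N}
    (h : IsReparametrizedFlow m E ψ φ) : Pool.Agent.Y516.NW.IsFl m E ψ φ :=
  ⟨h.smooth.continuousOn, h.pos, h.flow⟩

/-- For `n + 1 ≥ 3` bodies there is `C > 0`, depending on the masses only, such that for every energy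
`E`, every complete flow obtained from the `N`-body flow on `H = E` by a smooth positive change of
time, and every configuration `q` without collisions and with centre of mass `0` such that
`K = U(q) + E > 0`:
(1) if `ρ 0 ≥ ρ 1 ≥ ρ 2` are the square roots of the principal moments of `q`, the proportion of the
momenta (with sum `0` and kinetic energy `K`) for which `(q, p)` is nonwandering is at most
`f(ρ 0)³ f(ρ 1)² f(ρ 2)`, `f(r) = max(1, K r / C) ^ (-1/2)`;
(2) this proportion is at most `(C / (ρ K)) ^ (3/2)`, where `ρ = √(∑ m_i |q_i|²)`. -/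
theorem result (n : ℕ) (hn : 2 ≤ n) (m : Fin (n + 1) → ℝ) (hm : ∀ i, 0 < m i) :
    ∃ C : ℝ, 0 < C ∧ ∀ (E : ℝ) (ψ : Phase (n + 1) → ℝ)
      (φ : ℝ → Phase (n + 1) → Phase (n + 1)), IsReparametrizedFlow m E ψ φ →
      ∀ q : Fin (n + 1) → R3, (∀ i j, i ≠ j → q i ≠ q j) → ∑ i, m i • q i = 0 →
      0 < potential m q + E →
      (∀ (e : OrthonormalBasis (Fin 3) ℝ R3) (ρ : Fin 3 → ℝ), PrincipalAxes m q e ρ →
        volume {P : Fin n → R3 | kinetic m (momenta P) ≤ 1 ∧
            IsNonwandering (surface m E) φ (q, scaled m (potential m q + E) P)} ≤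
          ENNReal.ofReal (factor (potential m q + E) (ρ 0) C ^ 3 *
            factor (potential m q + E) (ρ 1) C ^ 2 * factor (potential m q + E) (ρ 2) C) *
            volume {P : Fin n → R3 | kinetic m (momenta P) ≤ 1}) ∧
      volume {P : Fin n → R3 | kinetic m (momenta P) ≤ 1 ∧
          IsNonwandering (surface m E) φ (q, scaled m (potential m q + E) P)} ≤
        ENNReal.ofReal ((C / (Real.sqrt (∑ i, m i * ‖q i‖ ^ 2) * (potential m q + E))) ^
          (3 / 2 : ℝ)) *
          volume {P : Fin n → R3 | kinetic m (momenta P) ≤ 1} := by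
  obtain ⟨C, hC, h⟩ := Pool.Agent.K6.H53.NB.meas_main m hm
  refine ⟨2 * C, by positivity, ?_⟩
  intro E ψ φ hφ q hne hq hK
  have h1 := h E ψ φ (isFl hφ) q hne hq (potential m q + E) rfl hK
  refine ⟨fun e ρ hρ => ?_, ?_⟩
  · refine (h1 e ρ hρ.1 hρ.2.1 hρ.2.2).trans (mul_le_mul_left (ENNReal.ofReal_le_ofReal ?_) _)
    have g : ∀ a, Pool.Agent.K6.H53.NB.fac (potential m q + E) (ρ a) C ≤
        factor (potential m q + E) (ρ a) (2 * C) := fun a =>
      Pool.Agent.K6.H53.NB.fac_mono hC (by linarith) (mul_nonneg hK.le (hρ.2.1 a))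
    have p := fun a => Pool.Agent.K6.H53.NB.fac_pos (potential m q + E) (ρ a) C
    have g0 := g 0
    have g1 := g 1
    have g2 := g 2
    have p0 := p 0
    have p1 := p 1
    have p2 := p 2
    have q0 := (p0.trans_le g0).le
    have q1 := (p1.trans_le g1).le
    gcongr
  · obtain ⟨e, ρ, hp, hρ0, hρ, hsum⟩ := Pool.Agent.K6.H53.NB.exists_princ m hm q
    refine (h1 e ρ hp hρ0 hρ).trans (mul_le_mul_left (ENNReal.ofReal_le_ofReal ?_) _)
    have hpos : 0 < ∑ i, m i * ‖q i‖ ^ 2 := by
      have h2 : 0 ≤ ∑ i, m i * ‖q i‖ ^ 2 := Finset.sum_nonneg fun i _ =>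
        mul_nonneg (hm i).le (sq_nonneg _)
      rcases h2.eq_or_lt with h3 | h3
      · exfalso
        have h4 : ∀ i, q i = 0 := by
          intro i
          have h5 := (Finset.sum_eq_zero_iff_of_nonneg (fun i _ =>
            mul_nonneg (hm i).le (sq_nonneg _))).mp h3.symm i (Finset.mem_univ i)
          rcases mul_eq_zero.1 h5 with h6 | h6
          · exact absurd h6 (hm i).ne'
          · exact norm_eq_zero.mp (pow_eq_zero_iff (by norm_num) |>.mp h6)
        have h7 : (⟨0, by omega⟩ : Fin (n + 1)) ≠ ⟨1, by omega⟩ := by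
          simp
        exact hne _ _ h7 (by rw [h4, h4])
      · exact h3
    have h01 := hρ (show (0 : Fin 3) ≤ 1 by decide)
    have h02 := hρ (show (0 : Fin 3) ≤ 2 by decide)
    have hr0 : 0 < ρ 0 := by
      rcases (hρ0 0).eq_or_lt with h3 | h3
      · exfalso
        have e1 : ρ 1 = 0 := le_antisymm (by rw [h3]; exact h01) (hρ0 1)
        have e2 : ρ 2 = 0 := le_antisymm (by rw [h3]; exact h02) (hρ0 2)
        rw [hsum, ← h3, e1, e2] at hpos
        norm_num at hpos
      · exact h3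
    refine Pool.Agent.K6.H53.NB.fac_cube hK hC hr0 ?_ (Real.sqrt_pos.2 hpos)
      (Pool.Agent.K6.H53.NB.fac_pos _ _ _).le (Pool.Agent.K6.H53.NB.fac_pos _ _ _).le
      (Pool.Agent.K6.H53.NB.fac_le_one _ _ _) (Pool.Agent.K6.H53.NB.fac_le_one _ _ _)
    rw [Real.sqrt_le_left (by linarith), hsum]
    have e1 : ρ 1 ^ 2 ≤ ρ 0 ^ 2 := pow_le_pow_left₀ (hρ0 1) h01 2
    have e2 : ρ 2 ^ 2 ≤ ρ 0 ^ 2 := pow_le_pow_left₀ (hρ0 2) h02 2
    nlinarith

end Pool.Agent.Results.MP_70f7a7_an.EveryConfiguration
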