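import Pool.Agent.K6.H53.NB.Vir

/-!
# The virial theorem, with a rate, for all nonwandering motions of the `N`-body problem

For all masses of `N` bodies there is a constant `C` such that for every energy `E`, every complete
flow on the energy surface obtained by a change of time, every nonwandering point `x`, every linear
map `A : R³ → R³` of norm at most `1` and all times `t` (positive or negative), `T` being the physical
time along the orbit:

* the size `R = √(∑ m_i |A q_i|²)` satisfies `|R(t)^(3/2) - R(0)^(3/2)| ≤ C |T(t)|`;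
* the integral over the physical time of the virial
  `∑ |A p_i|² / m_i - ∑_{i<j} m_i m_j |A (q_i - q_j)|² / |q_i - q_j|³` is at most
  `C (R(0)^(1/2) + |T|^(1/3))` in absolute value;
* the integral over the physical time of (kinetic energy) `+ E` is at most
  `C (R(0)^(1/2) + |T|^(1/3))` in absolute value (`R` with `A = id`): the time average of the kinetic
  energy of a nonwandering motion of infinite physical duration is `-E`.

Ingredients: the inequality `D⁴ ≤ K I` at nonwandering points (the dilation is small compared with the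
size), and the invariance of the nonwandering set under the flow.
-/

set_option autoImplicit false

namespace Pool.Agent.Results.MP_70f7a7_an.VirialTheorem

open Pool.Agent.K6.H53.NB

/-- The space `R³`. -/
abbrev R3 : Type := EuclideanSpace ℝ (Fin 3)

/-- Phase space: pairs (positions, momenta) of `N` bodies. -/
abbrev Phase (N : ℕ) : Type := (Fin N → R3) × (Fin N → R3)

/-- Kinetic energy of the momenta `p`. -/
noncomputable def kinetic {N : ℕ} (m : Fin N → ℝ) (p : Fin N → R3) : ℝ :=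
  ∑ i, ‖p i‖ ^ 2 / (2 * m i)

/-- The Newtonian potential `U(q) = ∑_{i<j} m_i m_j / |q_i - q_j|` (the energy is
kinetic energy minus `U`). -/
noncomputable def potential {N : ℕ} (m : Fin N → ℝ) (q : Fin N → R3) : ℝ :=
  ∑ i, ∑ j, m i * m j / ‖q i - q j‖ / 2

/-- The energy surface `H = E` of the reduced `N`-body problem (centre of mass `0`, total
momentum `0`, no collisions). -/
def surface {N : ℕ} (m : Fin N → ℝ) (E : ℝ) : Set (Phase N) :=
  {x | (∀ i j, i ≠ j → x.1 i ≠ x.1 j) ∧ ∑ i, m i • x.1 i = 0 ∧ ∑ i, x.2 i = 0 ∧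
    kinetic m x.2 - potential m x.1 = E}

/-- `φ` is the complete flow on the energy surface obtained from the `N`-body flow by a smooth
positive change of time `ψ`. -/
structure IsReparametrizedFlow {N : ℕ} (m : Fin N → ℝ) (E : ℝ) (ψ : Phase N → ℝ)
    (φ : ℝ → Phase N → Phase N) : Prop where
  /-- `ψ` is smooth outside collisions -/
  smooth : ContDiffOn ℝ ((⊤ : ℕ∞) : WithTop ℕ∞) ψ {x | ∀ i j, i ≠ j → x.1 i ≠ x.1 j}
  /-- `ψ` is positive outside collisions -/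
  pos : ∀ x : Phase N, (∀ i j, i ≠ j → x.1 i ≠ x.1 j) → 0 < ψ x
  /-- orbits exist for all times and solve the reparametrized equations of motion -/
  flow : ∀ x ∈ surface m E, φ 0 x = x ∧ ∀ t : ℝ, φ t x ∈ surface m E ∧
    HasDerivAt (fun s : ℝ => φ s x)
      (ψ (φ t x) • ((fun i => (m i)⁻¹ • (φ t x).2 i),
        (fun i => ∑ j, (m i * m j / ‖(φ t x).1 j - (φ t x).1 i‖ ^ 3) •
          ((φ t x).1 j - (φ t x).1 i)))) t

/-- `x` is a nonwandering point of the flow `φ` on the energy surface `S`. -/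
def IsNonwandering {N : ℕ} (S : Set (Phase N)) (φ : ℝ → Phase N → Phase N) (x : Phase N) : Prop :=
  ∀ V : Set (Phase N), IsOpen V → x ∈ V → ∀ T : ℝ, ∃ t : ℝ, T < t ∧ ∃ y ∈ V ∩ S, φ t y ∈ V

/-- The size `√(∑ m_i |A q_i|²)` of the configuration transformed by the linear map `A`. -/
noncomputable def size {N : ℕ} (m : Fin N → ℝ) (A : R3 →L[ℝ] R3) (x : Phase N) : ℝ :=
  Real.sqrt (∑ i, m i * ‖A (x.1 i)‖ ^ 2)

/-- The virial `∑ |A p_i|² / m_i - ∑_{i<j} m_i m_j |A (q_i - q_j)|² / |q_i - q_j|³`. -/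
noncomputable def virial {N : ℕ} (m : Fin N → ℝ) (A : R3 →L[ℝ] R3) (x : Phase N) : ℝ :=
  ∑ i, ‖A (x.2 i)‖ ^ 2 / m i -
    ∑ i, ∑ j, m i * m j * ‖A (x.1 i - x.1 j)‖ ^ 2 / ‖x.1 i - x.1 j‖ ^ 3 / 2

theorem isFl {N : ℕ} {m : Fin N → ℝ} {E : ℝ} {ψ : Phase N → ℝ} {φ : ℝ → Phase N → Phase N}
    (h : IsReparametrizedFlow m E ψ φ) : Pool.Agent.Y516.NW.IsFl m E ψ φ :=
  ⟨h.smooth.continuousOn, h.pos, h.flow⟩

theorem smooth' {N : ℕ} {m : Fin N → ℝ} {E : ℝ} {ψ : Phase N → ℝ} {φ : ℝ → Phase N → Phase N}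
    (h : IsReparametrizedFlow m E ψ φ) :
    ∀ x ∈ Pool.Agent.Y516.NW.Free N, ContDiffAt ℝ 1 ψ x := fun x hx =>
  (h.smooth.contDiffAt (Pool.Agent.Y516.NW.free_open.mem_nhds hx)).of_le (by
    exact_mod_cast (le_top : (1 : ℕ∞) ≤ ⊤))

theorem virial_id {N : ℕ} {m : Fin N → ℝ} {E : ℝ} {x : Phase N} (hx : x ∈ surface m E) :
    virial m (ContinuousLinearMap.id ℝ R3) x = kinetic m x.2 + E := by
  have h := hx.2.2.2
  have e1 : ∑ i, ‖x.2 i‖ ^ 2 / m i = 2 * kinetic m x.2 := by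
    unfold kinetic
    rw [Finset.mul_sum]
    refine Finset.sum_congr rfl fun i _ => ?_
    rw [← mul_div_assoc, mul_div_mul_left _ _ (two_ne_zero)]
  have e2 : ∑ i, ∑ j, m i * m j * ‖x.1 i - x.1 j‖ ^ 2 / ‖x.1 i - x.1 j‖ ^ 3 / 2 =
      potential m x.1 := by
    unfold potential
    refine Finset.sum_congr rfl fun i _ => Finset.sum_congr rfl fun j _ => ?_
    rcases eq_or_ne (‖x.1 i - x.1 j‖) 0 with h0 | h0
    · rw [h0]
      simp
    · field_simp
  unfold virial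
  simp only [ContinuousLinearMap.id_apply]
  rw [e1, e2]
  linarith

/-- bound of the dilation after time `T` -/
theorem dil_bound {I0 I1 D0 D1 c T : ℝ} (hc : 1 ≤ c) (hI0 : 0 ≤ I0) (hI1 : 0 ≤ I1)
    (h0 : |D0| ≤ c * I0 ^ (1 / 4 : ℝ)) (h1 : |D1| ≤ c * I1 ^ (1 / 4 : ℝ))
    (hg : |I1 ^ (3 / 4 : ℝ) - I0 ^ (3 / 4 : ℝ)| ≤ 3 / 2 * c * |T|) :
    |D1 - D0| ≤ (2 * c + 2 * c ^ 2) * (I0 ^ (1 / 4 : ℝ) + |T| ^ (1 / 3 : ℝ)) := by
  have hT := abs_nonneg T
  have e0 : ∀ I : ℝ, 0 ≤ I → (I ^ (3 / 4 : ℝ)) ^ (1 / 3 : ℝ) = I ^ (1 / 4 : ℝ) := fun I hI => by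
    rw [← Real.rpow_mul hI]
    norm_num
  have h2 : I1 ^ (3 / 4 : ℝ) ≤ I0 ^ (3 / 4 : ℝ) + 3 / 2 * c * |T| := by
    linarith [(abs_le.1 hg).2]
  have h3 : I1 ^ (1 / 4 : ℝ) ≤ I0 ^ (1 / 4 : ℝ) + (3 / 2 * c * |T|) ^ (1 / 3 : ℝ) := by
    rw [← e0 I1 hI1, ← e0 I0 hI0]
    exact (Real.rpow_le_rpow (Real.rpow_nonneg hI1 _) h2 (by norm_num)).trans
      (Real.rpow_add_le_add_rpow (Real.rpow_nonneg hI0 _) (by positivity) (by norm_num)
        (by norm_num))
  have h4 : (3 / 2 * c * |T|) ^ (1 / 3 : ℝ) ≤ 3 / 2 * c * |T| ^ (1 / 3 : ℝ) := by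
    rw [Real.mul_rpow (by positivity) hT]
    refine mul_le_mul_of_nonneg_right ?_ (Real.rpow_nonneg hT _)
    have h5 := Real.rpow_le_rpow_of_exponent_le (show 1 ≤ 3 / 2 * c by linarith)
      (show (1 / 3 : ℝ) ≤ 1 by norm_num)
    rwa [Real.rpow_one] at h5
  have h5 : 0 ≤ I0 ^ (1 / 4 : ℝ) := Real.rpow_nonneg hI0 _
  have h6 : 0 ≤ |T| ^ (1 / 3 : ℝ) := Real.rpow_nonneg hT _
  have h7 : |D1 - D0| ≤ |D1| + |D0| := abs_sub _ _
  obtain ⟨a, ha⟩ : ∃ a, a = I0 ^ (1 / 4 : ℝ) := ⟨_, rfl⟩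
  obtain ⟨b, hb⟩ : ∃ b, b = |T| ^ (1 / 3 : ℝ) := ⟨_, rfl⟩
  rw [← ha] at h0 h3 h5 ⊢
  rw [← hb] at h4 h6 ⊢
  have h8 : |D1| ≤ c * (a + 3 / 2 * c * b) :=
    h1.trans (mul_le_mul_of_nonneg_left (by linarith) (by linarith))
  have h9 : 0 ≤ c ^ 2 * a := by positivity
  have h10 : 0 ≤ c ^ 2 * b := by positivity
  have h11 : 0 ≤ c * b := by positivity
  nlinarith

theorem size_rpow {N : ℕ} {m : Fin N → ℝ} (hm : ∀ i, 0 < m i) (A : R3 →L[ℝ] R3) (x : Phase N)
    (a : ℝ) : size m A x ^ a = iner m (pr A x.1) ^ (a / 2) := by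
  have h0 : 0 ≤ iner m (pr A x.1) := iner_nonneg hm _
  have h1 : size m A x = iner m (pr A x.1) ^ (1 / 2 : ℝ) := Real.sqrt_eq_rpow _
  rw [h1, ← Real.rpow_mul h0]
  congr 1
  ring

/-- the integral of the virial is the increment of the dilation -/
theorem integral_virial {N : ℕ} {m : Fin N → ℝ} (hm : ∀ i, 0 < m i) {E : ℝ} {ψ : Phase N → ℝ}
    {φ : ℝ → Phase N → Phase N} (hφ : IsReparametrizedFlow m E ψ φ) {x : Phase N}
    (hx : x ∈ surface m E) (A : R3 →L[ℝ] R3) (t : ℝ) :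
    ∫ s in (0:ℝ)..t, ψ (φ s x) * virial m A (φ s x) = Dl m A (φ t x) - Dl m A (φ 0 x) := by
  have hfl := (isFl hφ).flow x hx
  have hcont : Continuous fun s => φ s x :=
    continuous_iff_continuousAt.2 fun s => (hfl.2 s).2.continuousAt
  have hfree : ∀ s, φ s x ∈ Pool.Agent.Y516.NW.Free N := fun s => (hfl.2 s).1.1
  have hψ : Continuous fun s => ψ (φ s x) := hφ.smooth.continuousOn.comp_continuous hcont hfree
  have hq : ∀ i, Continuous fun s => (φ s x).1 i := fun i =>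
    (continuous_apply i).comp (continuous_fst.comp hcont)
  have hp : ∀ i, Continuous fun s => (φ s x).2 i := fun i =>
    (continuous_apply i).comp (continuous_snd.comp hcont)
  have hv : Continuous fun s => virial m A (φ s x) := by
    unfold virial
    refine Continuous.sub (continuous_finsetSum _ fun i _ =>
      ((A.continuous.comp (hp i)).norm.pow 2).div_const _)
      (continuous_finsetSum _ fun i _ => continuous_finsetSum _ fun j _ => ?_)
    by_cases hij : i = j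
    · subst hij
      simp only [sub_self, map_zero, norm_zero]
      exact continuous_const
    · refine Continuous.div_const (Continuous.div (continuous_const.mul
        ((A.continuous.comp ((hq i).sub (hq j))).norm.pow 2)) (((hq i).sub (hq j)).norm.pow 3)
        fun s => pow_ne_zero 3 (norm_ne_zero_iff.2 (sub_ne_zero.2 (hfree s i j hij)))) 2
  exact intervalIntegral.integral_eq_sub_of_hasDerivAt
    (fun s _ => Dl_hasDerivAt hm (isFl hφ) hx A s) ((hψ.mul hv).intervalIntegrable _ _)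

/-- For `N` bodies there is `C > 0`, depending on the masses only, such that for every energy `E`,
every complete flow obtained from the `N`-body flow on `H = E` by a smooth positive change of time,
every nonwandering point `x`, the physical time `T` along its orbit and every time `t`:
(1) `|R(t)^(3/2) - R(0)^(3/2)| ≤ C |T(t)|` and
`|∫ (∑ |A p_i|² / m_i - ∑_{i<j} m_i m_j |A (q_i - q_j)|² / |q_i - q_j|³) dT| ≤ C (R(0)^(1/2) + |T(t)|^(1/3))`
for every linear map `A : R³ → R³` with `|A z| ≤ |z|`, where `R = √(∑ m_i |A q_i|²)`;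
(2) `|∫ (kinetic energy + E) dT| ≤ C (R(0)^(1/2) + |T(t)|^(1/3))`, where `R = √(∑ m_i |q_i|²)`. -/
theorem result (N : ℕ) (hN : 0 < N) (m : Fin N → ℝ) (hm : ∀ i, 0 < m i) :
    ∃ C : ℝ, 0 < C ∧ ∀ (E : ℝ) (ψ : Phase N → ℝ) (φ : ℝ → Phase N → Phase N),
      IsReparametrizedFlow m E ψ φ → ∀ x ∈ surface m E, IsNonwandering (surface m E) φ x →
        ∀ T : ℝ → ℝ, T 0 = 0 → (∀ t, HasDerivAt T (ψ (φ t x)) t) → ∀ t : ℝ,
          (∀ A : R3 →L[ℝ] R3, (∀ z, ‖A z‖ ≤ ‖z‖) →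
            |size m A (φ t x) ^ (3 / 2 : ℝ) - size m A x ^ (3 / 2 : ℝ)| ≤ C * |T t| ∧
            |∫ s in (0:ℝ)..t, ψ (φ s x) * virial m A (φ s x)| ≤
              C * (size m A x ^ (1 / 2 : ℝ) + |T t| ^ (1 / 3 : ℝ))) ∧
          |∫ s in (0:ℝ)..t, ψ (φ s x) * (kinetic m (φ s x).2 + E)| ≤
            C * (size m (ContinuousLinearMap.id ℝ R3) x ^ (1 / 2 : ℝ) + |T t| ^ (1 / 3 : ℝ)) := by
  obtain ⟨μ, M, θ, hms⟩ := exists_mass m hm hN
  have hθ0 : 0 ≤ θ := zero_le_one.trans hms.hθ1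
  have hKp := cstK_pos N M hθ0
  obtain ⟨c, hc⟩ : ∃ c, c = 1 + cstK N M θ := ⟨_, rfl⟩
  have hc1 : 1 ≤ c := by rw [hc]; linarith
  have hc0 : 0 < c := by linarith
  have hcK : cstK N M θ ≤ c ^ 4 := by
    have h1 : c ≤ c ^ 4 := by
      have := pow_le_pow_right₀ hc1 (show 1 ≤ 4 by norm_num)
      simpa using this
    rw [hc] at h1 ⊢
    linarith
  refine ⟨2 * c + 2 * c ^ 2, by positivity, ?_⟩
  intro E ψ φ hφ x hx hNW T hT0 hT t
  have hfl := (isFl hφ).flow x hx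
  -- the inequality along the whole orbit
  have hall : ∀ A : R3 →L[ℝ] R3, (∀ z, ‖A z‖ ≤ ‖z‖) → ∀ s,
      |Dl m A (φ s x)| ≤ c * iner m (pr A (φ s x).1) ^ (1 / 4 : ℝ) := by
    intro A hA s
    have h1 := thin hms E ψ φ (isFl hφ) (φ s x) (hfl.2 s).1
      (nonW_inv (isFl hφ) (smooth' hφ) hx hNW s) A hA
    refine abs_le_rpow hc0.le (iner_nonneg hm _) (h1.trans ?_)
    exact mul_le_mul_of_nonneg_right hcK (iner_nonneg hm _)
  have hmain : ∀ A : R3 →L[ℝ] R3, (∀ z, ‖A z‖ ≤ ‖z‖) →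
      |size m A (φ t x) ^ (3 / 2 : ℝ) - size m A x ^ (3 / 2 : ℝ)| ≤
        (2 * c + 2 * c ^ 2) * |T t| ∧
      |∫ s in (0:ℝ)..t, ψ (φ s x) * virial m A (φ s x)| ≤
        (2 * c + 2 * c ^ 2) * (size m A x ^ (1 / 2 : ℝ) + |T t| ^ (1 / 3 : ℝ)) := by
    intro A hA
    have hg := growth (I := fun s => iner m (pr A (φ s x).1)) (D := fun s => Dl m A (φ s x))
      (c := fun s => ψ (φ s x)) (T := T) hc0.le (fun s => iner_nonneg hm _)
      (fun s => hφ.pos _ (hfl.2 s).1.1) (fun s => In_hasDerivAt hm (isFl hφ) hx A s) hT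
      (hall A hA) t
    simp only [hfl.1, hT0, sub_zero] at hg
    have h0 := hall A hA 0
    rw [hfl.1] at h0
    constructor
    · rw [size_rpow hm, size_rpow hm, show (3 / 2 : ℝ) / 2 = 3 / 4 by norm_num]
      refine hg.trans (mul_le_mul_of_nonneg_right ?_ (abs_nonneg _))
      nlinarith
    · rw [integral_virial hm hφ hx A t, hfl.1, size_rpow hm,
        show (1 / 2 : ℝ) / 2 = 1 / 4 by norm_num]
      exact dil_bound hc1 (iner_nonneg hm _) (iner_nonneg hm _) h0 (hall A hA t) hg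
  refine ⟨hmain, ?_⟩
  have h1 := (hmain (ContinuousLinearMap.id ℝ R3) (fun z => le_rfl)).2
  have h2 : ∫ s in (0:ℝ)..t, ψ (φ s x) * (kinetic m (φ s x).2 + E) =
      ∫ s in (0:ℝ)..t, ψ (φ s x) * virial m (ContinuousLinearMap.id ℝ R3) (φ s x) := by
    congr 1
    funext s
    rw [virial_id (hfl.2 s).1]
  rw [h2]
  exact h1

end Pool.Agent.Results.MP_70f7a7_an.VirialTheorem
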